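import Mathlib

set_option autoImplicit false

namespace Pool.Agent.Results.MP_12428a_co.Yes

open Finset

/-- conservation at every vertex (loops are ignored); edge `e` has tail `t e` and head `h e` -/
def Conserved {V E A : Type} [Fintype E] [DecidableEq V] [AddCommGroup A] (t h : E → V)
    (f : E → A) : Prop :=
  ∀ v, ∑ e ∈ univ.filter (fun e => t e = v ∧ h e ≠ v), f e =
    ∑ e ∈ univ.filter (fun e => h e = v ∧ t e ≠ v), f e

open Classical in
/-- the balanced vector of `v`, indexed by the distinct values of `φ` -/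
noncomputable def bal {V E A : Type} [Fintype E] (t h : E → V) (φ : E → A) (v : V) :
    Set.range φ → ℚ := fun x =>
  ((univ.filter (fun e => t e = v ∧ h e ≠ v ∧ φ e = x.1)).card : ℚ) -
    ((univ.filter (fun e => h e = v ∧ t e ≠ v ∧ φ e = x.1)).card : ℚ)

section
variable {V E : Type} [DecidableEq V]

def dd (t h : E → V) (e : E) (v : V) : ℤ := (if t e = v then 1 else 0) - (if h e = v then 1 else 0)

lemma conserved_iff [Fintype E] {A : Type} [AddCommGroup A] (t h : E → V) (f : E → A) :
    Conserved t h f ↔ ∀ v, ∑ e, dd t h e v • f e = 0 := by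
  refine forall_congr' (fun v => ?_)
  rw [← sub_eq_zero, Finset.sum_filter, Finset.sum_filter, ← Finset.sum_sub_distrib]
  have : ∀ e, ((if t e = v ∧ h e ≠ v then f e else 0) - if h e = v ∧ t e ≠ v then f e else 0) =
      dd t h e v • f e := by
    intro e
    unfold dd
    by_cases a : t e = v <;> by_cases b : h e = v <;> simp [a, b]
  simp only [this]

lemma euler [DecidableEq E] : ∀ (n : ℕ) (F : Finset E), F.card = n → ∀ t h : E → V,
    (∀ v, Even (∑ e ∈ F, dd t h e v)) →
    ∃ g : E → ℤ, (∀ e ∈ F, g e = 1 ∨ g e = -1) ∧ ∀ v, ∑ e ∈ F, dd t h e v * g e = 0 := by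
  intro n
  induction n with
  | zero =>
    intro F hF t h _
    rw [card_eq_zero] at hF
    subst hF
    exact ⟨0, by simp, by simp⟩
  | succ n ih =>
    intro F hF t h hev
    obtain ⟨e, he⟩ : F.Nonempty := card_pos.1 (by omega)
    by_cases hl : t e = h e
    · have h0 : ∀ v, dd t h e v = 0 := fun v => by simp [dd, hl]
      obtain ⟨g, h1, h2⟩ := ih (F.erase e) (by rw [card_erase_of_mem he]; omega) t h (fun v => by
        have := hev v
        rwa [← Finset.add_sum_erase F _ he, h0, zero_add] at this)
      refine ⟨Function.update g e 1, fun x hx => ?_, fun v => ?_⟩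
      · by_cases hxe : x = e
        · subst hxe; simp
        · rw [Function.update_of_ne hxe]; exact h1 x (mem_erase.2 ⟨hxe, hx⟩)
      · rw [← Finset.add_sum_erase F _ he, h0, zero_mul, zero_add, ← h2 v]
        exact Finset.sum_congr rfl (fun x hx => by rw [Function.update_of_ne (mem_erase.1 hx).1])
    · have : ∃ e' ∈ F.erase e, dd t h e' (h e) ≠ 0 := by
        by_contra hc
        push Not at hc
        have := hev (h e)
        rw [← Finset.add_sum_erase F _ he, Finset.sum_eq_zero hc] at this
        simp [dd, hl] at this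
      obtain ⟨e', he', hd⟩ := this
      have hne : e' ≠ e := (mem_erase.1 he').1
      have he'F : e' ∈ F := (mem_erase.1 he').2
      have hee : e ∈ F.erase e' := mem_erase.2 ⟨hne.symm, he⟩
      obtain ⟨w, s, hs, hw⟩ : ∃ (w : V) (s : ℤ), (s = 1 ∨ s = -1) ∧ ∀ v,
          dd t (Function.update h e w) e v = dd t h e v + s * dd t h e' v := by
        by_cases a : t e' = h e
        · refine ⟨h e', 1, Or.inl rfl, fun v => ?_⟩
          simp only [dd, Function.update_self, a]; ring
        · have b : h e' = h e := by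
            by_contra b
            simp [dd, a, b] at hd
          refine ⟨t e', -1, Or.inr rfl, fun v => ?_⟩
          simp only [dd, Function.update_self, b]; ring
      have hoth : ∀ x, x ≠ e → ∀ v, dd t (Function.update h e w) x v = dd t h x v := by
        intro x hx v
        simp only [dd, Function.update_of_ne hx]
      obtain ⟨g, h1, h2⟩ := ih (F.erase e') (by rw [card_erase_of_mem he'F]; omega) t
        (Function.update h e w) (fun v => by
        have := hev v
        rw [← Finset.add_sum_erase F _ he'F, ← Finset.add_sum_erase _ _ hee] at this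
        rw [← Finset.add_sum_erase _ _ hee, hw,
          Finset.sum_congr rfl (fun x hx => hoth x (mem_erase.1 hx).1 v)]
        obtain ⟨k, hk⟩ := this
        rcases hs with rfl | rfl
        · exact ⟨k, by linarith⟩
        · exact ⟨k - dd t h e' v, by linarith⟩)
      refine ⟨Function.update g e' (s * g e), fun x hx => ?_, fun v => ?_⟩
      · by_cases hxe : x = e'
        · subst hxe
          rw [Function.update_self]
          rcases h1 e hee with a | a <;> rcases hs with b | b <;> simp [a, b]
        · rw [Function.update_of_ne hxe]; exact h1 x (mem_erase.2 ⟨hxe, hx⟩)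
      · have := h2 v
        rw [← Finset.add_sum_erase _ _ hee, hw,
          Finset.sum_congr rfl (fun x hx => by rw [hoth x (mem_erase.1 hx).1 v])] at this
        rw [← Finset.add_sum_erase F _ he'F, Function.update_self,
          Finset.sum_congr rfl (fun x hx => by rw [Function.update_of_ne (mem_erase.1 hx).1]),
          ← Finset.add_sum_erase _ _ hee]
        linear_combination this

omit [DecidableEq V] in
lemma odd_rel {I : Type} [Fintype I] (s : V → I → ℤ) (K : Finset I) : ∀ (n : ℕ) (a : I → ℤ),
    ∑ i, (a i).natAbs = n → a ≠ 0 → (∀ i, i ∉ K → a i = 0) → (∀ v, ∑ i, a i * s v i = 0) →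
    ∃ b : I → ℤ, (∃ i, Odd (b i)) ∧ (∀ i, i ∉ K → b i = 0) ∧ ∀ v, ∑ i, b i * s v i = 0 := by
  intro n
  induction n using Nat.strong_induction_on with
  | _ n ih =>
  intro a hn ha hK hs
  by_cases ho : ∃ i, Odd (a i)
  · exact ⟨a, ho, hK, hs⟩
  push Not at ho
  simp only [Int.not_odd_iff_even] at ho
  choose c hc using ho
  obtain ⟨j, hj⟩ := Function.ne_iff.1 ha
  refine ih (∑ i, (c i).natAbs) ?_ c rfl ?_ (fun i hi => ?_) (fun v => ?_)
  · rw [← hn]
    refine Finset.sum_lt_sum (fun i _ => by have := hc i; omega) ⟨j, mem_univ _, ?_⟩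
    have := hc j
    simp only [Pi.zero_apply] at hj
    omega
  · intro e
    apply hj
    rw [hc j, e]; simp
  · have := hc i
    have := hK i hi
    omega
  · have h1 := hs v
    simp only [hc, add_mul, Finset.sum_add_distrib] at h1
    omega

omit [DecidableEq V] in
lemma exists_rel {I : Type} [Fintype I] [DecidableEq I] (s : V → I → ℤ) (K : Finset I)
    (hK : 2 < K.card)
    (hr : Module.finrank ℚ (Submodule.span ℚ (Set.range (fun v i => (s v i : ℚ)))) ≤ 2) :
    ∃ b : I → ℤ, (∃ i, Odd (b i)) ∧ (∀ i, i ∉ K → b i = 0) ∧ ∀ v, ∑ i, b i * s v i = 0 := by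
  let π : (I → ℚ) →ₗ[ℚ] (K → ℚ) := LinearMap.funLeft ℚ ℚ Subtype.val
  let W := (Submodule.span ℚ (Set.range (fun v i => (s v i : ℚ)))).map π
  have h1 : Module.finrank ℚ W ≤ 2 := (Submodule.finrank_map_le _ _).trans hr
  have h2 : W < ⊤ := by
    rw [lt_top_iff_ne_top]
    intro e
    rw [e, finrank_top] at h1
    simp at h1
    omega
  obtain ⟨f, hf0, hf⟩ := W.exists_le_ker_of_lt_top h2
  let q : K → ℚ := fun i => f (Pi.single i 1)
  have hfq : ∀ x : K → ℚ, f x = ∑ i, q i * x i := by
    intro x
    conv_lhs => rw [pi_eq_sum_univ' x]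
    simp only [map_sum, map_smul, smul_eq_mul, q]
    exact Finset.sum_congr rfl (fun i _ => mul_comm _ _)
  obtain ⟨m, hm⟩ := IsLocalization.exist_integer_multiples_of_finite (nonZeroDivisors ℤ) q
  choose c hc using hm
  have hm0 : ((m : ℤ) : ℚ) ≠ 0 := by exact_mod_cast nonZeroDivisors.coe_ne_zero m
  have hc' : ∀ i, (c i : ℚ) = (m : ℤ) * q i := fun i => by
    have := hc i
    simpa using this
  refine odd_rel s K _ (fun i => if h : i ∈ K then c ⟨i, h⟩ else 0) rfl ?_
    (fun i hi => dif_neg hi) (fun v => ?_)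
  · intro e
    apply hf0
    ext x
    have : c x = 0 := by
      have := congrFun e x
      simpa [x.2] using this
    have h3 := hc' x
    rw [this] at h3
    have : q x = 0 := by
      rcases mul_eq_zero.1 h3.symm with h | h
      · exact absurd h hm0
      · exact h
    simpa [q] using this
  · have h3 : f (π (fun i => (s v i : ℚ))) = 0 :=
      hf (Submodule.mem_map_of_mem (Submodule.subset_span ⟨v, rfl⟩))
    rw [hfq] at h3
    have h4 : ∑ i, (if h : i ∈ K then c ⟨i, h⟩ else 0) * s v i = ∑ i : K, c i * s v i := by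
      rw [← Finset.sum_subset (subset_univ K) (fun i _ hi => by simp [hi]), ← Finset.sum_attach K]
      simp
    rw [h4]
    have : ((∑ i : K, c i * s v i : ℤ) : ℚ) = 0 := by
      push_cast
      simp only [hc', mul_assoc, ← Finset.mul_sum]
      have : ∑ i : K, q i * (s v i : ℚ) = 0 := h3
      rw [this, mul_zero]
    exact_mod_cast this

omit [DecidableEq V] in
lemma two_even {I X : Type} [NormedAddCommGroup X] [NormedSpace ℝ X] (x : I → X)
    (hx : ∀ i, ‖x i‖ = 1) (K : Finset I) (hK : K.card ≤ 2) (s : I → ℤ)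
    (h : ∑ i ∈ K, s i • x i = 0) : Even (∑ i ∈ K, s i) := by
  classical
  have hn : ∀ i, ‖s i • x i‖ = |(s i : ℝ)| := fun i => by
    rw [← Int.cast_smul_eq_zsmul ℝ, norm_smul, hx, mul_one, Real.norm_eq_abs]
  obtain h0 | h0 | h0 : K.card = 0 ∨ K.card = 1 ∨ K.card = 2 := by omega
  · rw [card_eq_zero] at h0; subst h0; simp
  · obtain ⟨i, rfl⟩ := card_eq_one.1 h0
    rw [sum_singleton] at h ⊢
    have := hn i
    rw [h, norm_zero] at this
    have : s i = 0 := by exact_mod_cast abs_eq_zero.1 this.symm
    simp [this]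
  · obtain ⟨i, j, hij, rfl⟩ := card_eq_two.1 h0
    rw [sum_pair hij] at h ⊢
    have e : s i • x i = -(s j • x j) := eq_neg_of_add_eq_zero_left h
    have h1 := hn i
    rw [e, norm_neg, hn j] at h1
    have h2 : |s j| = |s i| := by exact_mod_cast h1
    rcases abs_eq_abs.1 h2 with a | a
    · exact ⟨s i, by rw [a]⟩
    · rw [a]; simp

lemma join [Fintype V] [Fintype E] [DecidableEq E] (t h : E → V) (F : Finset E)
    (hF : ∀ u : V → ℤ, (∀ e ∈ F, u (t e) = u (h e)) → Even (∑ e ∈ Fᶜ, (u (t e) - u (h e)))) :
    ∃ F2 : Finset E, Fᶜ ⊆ F2 ∧ ∀ v, Even (∑ e ∈ F2, dd t h e v) := by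
  let r : E → V → ZMod 2 := fun e v => (dd t h e v : ZMod 2)
  let W : Submodule (ZMod 2) (V → ZMod 2) := Submodule.span (ZMod 2) (r '' F)
  have hb : ∑ e ∈ Fᶜ, r e ∈ W := by
    by_contra hc
    obtain ⟨f, hf0, hf⟩ := W.exists_le_ker_of_notMem hc
    let u : V → ZMod 2 := fun v => f (Pi.single v 1)
    have hfr : ∀ e, f (r e) = u (t e) - u (h e) := by
      intro e
      have : r e = Pi.single (t e) 1 - Pi.single (h e) 1 := by
        ext v
        simp only [r, dd, Pi.sub_apply, Pi.single_apply, eq_comm (a := v)]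
        split_ifs <;> simp
      rw [this, map_sub]
    have h1 := hF (fun v => ((u v).val : ℤ)) (fun e he => by
      have : f (r e) = 0 := hf (Submodule.subset_span ⟨e, he, rfl⟩)
      rw [hfr, sub_eq_zero] at this
      simp only [this])
    apply hf0
    rw [map_sum]
    simp only [hfr]
    have h2 := (ZMod.intCast_zmod_eq_zero_iff_dvd _ 2).2 (even_iff_two_dvd.1 h1)
    simpa using h2
  obtain ⟨z, hz⟩ := (Submodule.mem_span_image_finset_iff_exists_fun' (ZMod 2)).1 hb
  refine ⟨Fᶜ ∪ F.filter (fun e => z e = 1), subset_union_left, fun v => ?_⟩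
  rw [even_iff_two_dvd]
  apply (ZMod.intCast_zmod_eq_zero_iff_dvd _ 2).1
  rw [Finset.sum_union (disjoint_left.2 (fun e h1 h2 => (mem_compl.1 h1) (mem_filter.1 h2).1))]
  push_cast
  have h1 := congrFun hz v
  simp only [Finset.sum_apply, Pi.smul_apply, smul_eq_mul] at h1
  have h2 : ∑ e ∈ F.filter (fun e => z e = 1), (dd t h e v : ZMod 2) = ∑ e ∈ F, z e * r e v := by
    rw [Finset.sum_filter]
    apply Finset.sum_congr rfl
    intro e _
    have : ∀ y : ZMod 2, y = 0 ∨ y = 1 := by decide
    rcases this (z e) with a | a <;> simp [a, r]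
  rw [h2, h1]
  exact CharTwo.add_self_eq_zero _

end

theorem result (V E : Type) [Fintype V] [Fintype E] [DecidableEq V] (t h : E → V)
    (φ : E → EuclideanSpace ℝ (Fin 3)) (hunit : ∀ e, ‖φ e‖ = 1) (hflow : Conserved t h φ)
    (hrank : Module.finrank ℚ (Submodule.span ℚ (Set.range (bal t h φ))) ≤ 2) :
    ∃ f : E → ℤ, (∀ e, 0 < |f e| ∧ |f e| < 4) ∧ Conserved t h f := by
  classical
  have : Fintype (Set.range φ) := Fintype.ofFinite _
  let cls : E → Set.range φ := fun e => ⟨φ e, e, rfl⟩
  let s : V → Set.range φ → ℤ := fun v i => ∑ e ∈ univ.filter (fun e => cls e = i), dd t h e v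
  have hbal : bal t h φ = fun v i => (s v i : ℚ) := by
    ext v i
    simp only [bal, s, Finset.card_filter, Finset.sum_filter]
    push_cast
    rw [← Finset.sum_sub_distrib]
    apply Finset.sum_congr rfl
    intro e _
    have : cls e = i ↔ φ e = i.1 := Subtype.ext_iff
    unfold dd
    by_cases a : t e = v <;> by_cases b : h e = v <;> by_cases c : φ e = i.1 <;>
      simp [a, b, c, this]
  rw [hbal] at hrank
  rw [conserved_iff] at hflow
  have hfib : ∀ (J : Finset (Set.range φ)) (g : E → ℤ),
      ∑ i ∈ J, ∑ e ∈ univ.filter (fun e => cls e = i), g e =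
        ∑ e ∈ univ.filter (fun e => cls e ∈ J), g e := fun J g =>
    Finset.sum_fiberwise_eq_sum_filter _ _ _ _
  obtain ⟨J, hJ, hmax⟩ := Finset.exists_max_image
    (univ.filter (fun J : Finset (Set.range φ) => ∀ v, Even (∑ i ∈ J, s v i))) card
    ⟨∅, by simp⟩
  simp only [mem_filter, mem_univ, true_and] at hJ hmax
  have hK : Jᶜ.card ≤ 2 := by
    by_contra hc
    obtain ⟨b, ⟨j, hj⟩, hb, hs⟩ := exists_rel s Jᶜ (by omega) hrank
    have hd : Disjoint J (univ.filter (fun i => Odd (b i))) := by
      rw [disjoint_left]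
      intro i h1 h2
      have := hb i (by simpa using h1)
      rw [mem_filter, this] at h2
      simp at h2
    have := hmax (J ∪ univ.filter (fun i => Odd (b i))) (fun v => by
      rw [Finset.sum_union hd]
      refine (hJ v).add ?_
      have e : ∑ i ∈ univ.filter (fun i => Odd (b i)), s v i =
          ∑ i, ((if Odd (b i) then 1 else 0) - b i) * s v i := by
        simp only [sub_mul, Finset.sum_sub_distrib, hs v, sub_zero, Finset.sum_filter]
        simp
      rw [e]
      apply Finset.even_sum
      intro i _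
      apply Even.mul_right
      split_ifs with a
      · exact odd_one.sub_odd a
      · simpa using a)
    rw [card_union_of_disjoint hd] at this
    have : 0 < (univ.filter (fun i => Odd (b i))).card := card_pos.2 ⟨j, by simpa using hj⟩
    omega
  let F : Finset E := univ.filter (fun e => cls e ∈ J)
  obtain ⟨F2, hF2, hev⟩ := join t h F (fun u hu => by
    have e1 : Fᶜ = univ.filter (fun e => cls e ∈ Jᶜ) := by ext e; simp [F]
    rw [e1, ← hfib]
    apply two_even (fun i : Set.range φ => i.1) (fun ⟨_, e, he⟩ => he ▸ hunit e) _ hK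
    have e2 : ∑ e, (u (t e) - u (h e)) • φ e = 0 := by
      have : ∀ e, u (t e) - u (h e) = ∑ v, u v * dd t h e v := by
        intro e
        simp [dd, mul_sub, Finset.sum_sub_distrib]
      simp only [this, Finset.sum_smul, mul_smul]
      rw [Finset.sum_comm]
      simp only [← Finset.smul_sum, hflow, smul_zero, sum_const_zero]
    rw [← Finset.sum_add_sum_compl F, Finset.sum_eq_zero (fun e he => by rw [hu e he]; simp),
      zero_add, e1, ← Finset.sum_fiberwise_eq_sum_filter] at e2
    rw [← e2]
    apply Finset.sum_congr rfl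
    intro i _
    rw [Finset.sum_smul]
    apply Finset.sum_congr rfl
    intro e he
    rw [← (mem_filter.1 he).2])
  obtain ⟨g1, a1, b1⟩ := euler _ F rfl t h (fun v => by rw [← hfib]; exact hJ v)
  obtain ⟨g2, a2, b2⟩ := euler _ F2 rfl t h hev
  refine ⟨fun e => (if e ∈ F then g1 e else 0) + 2 * (if e ∈ F2 then g2 e else 0), fun e => ?_, ?_⟩
  · by_cases c1 : e ∈ F <;> by_cases c2 : e ∈ F2
    · rcases a1 e c1 with x | x <;> rcases a2 e c2 with y | y <;> simp [c1, c2, x, y]
    · rcases a1 e c1 with x | x <;> simp [c1, c2, x]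
    · rcases a2 e c2 with y | y <;> simp [c1, c2, y]
    · exact absurd (hF2 (mem_compl.2 c1)) c2
  · rw [conserved_iff]
    intro v
    have : ∀ e, dd t h e v • ((if e ∈ F then g1 e else 0) + 2 * (if e ∈ F2 then g2 e else 0)) =
        (if e ∈ F then dd t h e v * g1 e else 0) + 2 * (if e ∈ F2 then dd t h e v * g2 e else 0) := by
      intro e
      split_ifs <;> simp <;> ring
    simp only [this, Finset.sum_add_distrib, ← Finset.mul_sum, Finset.sum_ite_mem, univ_inter,
      b1, b2]
    simp

end Pool.Agent.Results.MP_12428a_co.Yes
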